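import Mathlib
import Pool.Agent.Lib.MP_16b755_an.Pol
import Pool.Agent.Lib.MP_16b755_an.Har
import Pool.Agent.Lib.MP_16b755_an.Shift
import Pool.Agent.Lib.MP_16b755_an.Bas
import Pool.Agent.Lib.MP_16b755_an.Near
import Pool.Agent.Lib.MP_16b755_an.Rot
import Pool.Agent.Lib.MP_16b755_an.Hor
import Pool.Agent.Lib.MP_16b755_an.Cmp
import Pool.Agent.Lib.MP_16b755_an.OscA
import Pool.Agent.Lib.MP_16b755_an.OscB
import Pool.Agent.Lib.MP_16b755_an.Mv
import Pool.Agent.Lib.MP_16b755_an.MinP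
import Pool.Agent.Lib.MP_16b755_an.The
import Pool.Agent.Lib.MP_16b755_an.Bar
import Pool.Agent.Lib.MP_16b755_an.InfA
import Pool.Agent.Lib.MP_16b755_an.InfB
import Pool.Agent.Lib.MP_16b755_an.FinA
import Pool.Agent.Lib.MP_16b755_an.FinB
import Pool.Agent.Lib.MP_16b755_an.Pow
import Pool.Agent.Lib.MP_16b755_an.Tay
import Pool.Agent.Lib.MP_16b755_an.Grad
import Pool.Agent.Lib.MP_16b755_an.Tan
import Pool.Agent.Lib.MP_16b755_an.NmG
import Pool.Agent.Lib.MP_16b755_an.GrG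
import Pool.Agent.Lib.MP_16b755_an.Wd
import Pool.Agent.Lib.MP_16b755_an.PNm
import Pool.Agent.Lib.MP_16b755_an.PGr
import Pool.Agent.Lib.MP_16b755_an.Aut
import Pool.Agent.Lib.MP_16b755_an.Coc
import Pool.Agent.Lib.MP_16b755_an.Mob
import Pool.Agent.Lib.MP_16b755_an.Kak
import Pool.Agent.Lib.MP_16b755_an.Edge
import Pool.Agent.Lib.MP_16b755_an.Dec
import Pool.Agent.Lib.MP_16b755_an.Low
import Pool.Agent.Lib.MP_16b755_an.Van
import Pool.Agent.Lib.MP_16b755_an.Ord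
import Pool.Agent.Lib.MP_16b755_an.Re
import Pool.Agent.Lib.MP_16b755_an.TypA
import Pool.Agent.Lib.MP_16b755_an.TypB
import Pool.Agent.Lib.MP_16b755_an.Main

/-!
The Greene-Krantz conjecture for automorphisms that are fibred over the unit disc and diagonal affine on the
fibres: boundary orbit accumulation points have finite type.
-/

set_option autoImplicit false

namespace Pool.Agent.Results.MP_16b755_an.FibredAutomorphisms

open MP16b755

/-- Let `Ω` be a bounded domain with smooth boundary in `ℂ^n` whose image under the coordinate `x_k` is the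
unit disc, and let `φ_j` be automorphisms of `Ω` of the form `(φ_j x)_k = m_j(x_k)`,
`(φ_j x)_i = a_{j,i}(x_k) x_i + b_{j,i}(x_k)` for `i ≠ k`, with `m_j` injective on the disc.  If `φ_j q → p` for
some `q ∈ Ω` and a boundary point `p`, then `p` is of finite type. -/
theorem result :
    ∀ (n : ℕ) (Ω : Set (EuclideanSpace ℂ (Fin n))) (r : EuclideanSpace ℂ (Fin n) → ℝ) (k : Fin n),
      IsOpen Ω → IsConnected Ω → Bornology.IsBounded Ω →
      ContDiff ℝ ((⊤ : ℕ∞) : WithTop ℕ∞) r → Ω = {x | r x < 0} →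
      (∀ x ∈ frontier Ω, fderiv ℝ r x ≠ 0) →
      (fun x : EuclideanSpace ℂ (Fin n) => x k) '' Ω = Metric.ball (0 : ℂ) 1 →
      ∀ (φ : ℕ → EuclideanSpace ℂ (Fin n) → EuclideanSpace ℂ (Fin n))
        (q p : EuclideanSpace ℂ (Fin n)),
        (∀ j, DifferentiableOn ℂ (φ j) Ω ∧ Set.BijOn (φ j) Ω Ω ∧
          ∃ ψ : EuclideanSpace ℂ (Fin n) → EuclideanSpace ℂ (Fin n),
            DifferentiableOn ℂ ψ Ω ∧ Set.MapsTo ψ Ω Ω ∧
            Set.LeftInvOn ψ (φ j) Ω ∧ Set.RightInvOn ψ (φ j) Ω) →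
        (∀ j, ∃ (m : ℂ → ℂ) (a b : Fin n → ℂ → ℂ), Set.InjOn m (Metric.ball (0 : ℂ) 1) ∧
          ∀ x ∈ Ω, φ j x k = m (x k) ∧ ∀ i, i ≠ k → φ j x i = a i (x k) * x i + b i (x k)) →
        q ∈ Ω → p ∈ frontier Ω →
        Filter.Tendsto (fun j => φ j q) Filter.atTop (nhds p) →
        ∃ M : ℕ, ∀ γ : ℂ → EuclideanSpace ℂ (Fin n),
          (∃ ε > (0 : ℝ), DifferentiableOn ℂ γ (Metric.ball (0 : ℂ) ε)) →
          γ 0 = p →
          ∀ m : ℕ, 1 ≤ m →
            (∀ i : ℕ, 1 ≤ i → i < m → iteratedDeriv i γ 0 = 0) →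
            iteratedDeriv m γ 0 ≠ 0 →
            ∃ k : ℕ, k ≤ M * m ∧ iteratedFDeriv ℝ k (r ∘ γ) 0 ≠ 0 := by
  have hHar := tHar tPol
  have hNear := tNear tShift tBas
  have hHor := tHor tBas hHar hNear (tRot tBas)
  have hOscB := tOscB tBas tCmp tOscA
  have hMv := tMv tShift
  have hBar := tBar tMinP (tThe hHar)
  have hPow := tPow tBas tCmp hOscB (tInfA tBas tCmp hMv hBar) tInfB
    (tFinB tBas tCmp hMv hBar (tFinA tBas))
  have hTan := tTan tTay
  have hNmG := tNmG tTay tGrad hTan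
  have hGrG := tGrG tTay tGrad hTan
  have hEdge := tEdge tWd tAut tCoc
  have hDec := tDec tWd (tPNm hNmG) (tPGr hGrG) tAut tCoc tMob tKak hEdge hHor hPow
  have hTypB := tTypB tVan tOrd (tTypA tGrad tRe)
  exact tMain hEdge hDec (tLow tGrad) hTypB

end Pool.Agent.Results.MP_16b755_an.FibredAutomorphisms
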