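import Mathlib
import Pool.Agent.Lib.Gkp.Lc
import Pool.Agent.Lib.Gkp.Reg
import Pool.Agent.Lib.Gkp.Ext
import Pool.Agent.Lib.Gkp.Nz
import Pool.Agent.Lib.Gkp.Opn
import Pool.Agent.Lib.Gkp.Inf
import Pool.Agent.Lib.Gkp.Ent
import Pool.Agent.Lib.Gkp.Rk
import Pool.Agent.Lib.Gkp.Bj
import Pool.Agent.Lib.Gkp.Grp
import Pool.Agent.Lib.Gkp.Ut
import Pool.Agent.Lib.Gkp.Kre
import Pool.Agent.Lib.Gkp.Tay
import Pool.Agent.Lib.Gkp.Qf
import Pool.Agent.Lib.Gkp.T2
import Pool.Agent.Lib.Gkp.Inc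
import Pool.Agent.Lib.Gkp.Lev
import Pool.Agent.Lib.Gkp.MainA
import Pool.Agent.Lib.Gkp.Fac
import Pool.Agent.Lib.Gkp.Exo
import Pool.Agent.Lib.Gkp.Fo
import Pool.Agent.Lib.Gkp.Avg
import Pool.Agent.Lib.Gkp.Typ

/-!
The Greene-Krantz conjecture for projective (fractional linear) automorphisms: a boundary orbit accumulation
point is strongly pseudoconvex, so it has type 2.
-/

set_option autoImplicit false

namespace Pool.Agent.Results.MP_16b755_an.ProjectiveAutomorphisms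

open Gkp

/-- The second derivative of `r` at `p` in the direction `v`. -/
noncomputable def secondDeriv {n : ℕ} (r : EuclideanSpace ℂ (Fin n) → ℝ)
    (p v : EuclideanSpace ℂ (Fin n)) : ℝ :=
  fderiv ℝ (fderiv ℝ r) p v v

/-- The Levi form of `r` at `p` is positive definite on the complex tangent space of `{r = r p}`. -/
def LeviPositive {n : ℕ} (r : EuclideanSpace ℂ (Fin n) → ℝ)
    (p : EuclideanSpace ℂ (Fin n)) : Prop :=
  ∀ v : EuclideanSpace ℂ (Fin n), v ≠ 0 → fderiv ℝ r p v = 0 →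
    fderiv ℝ r p (Complex.I • v) = 0 →
    0 < secondDeriv r p v + secondDeriv r p (Complex.I • v)

/-- `φ` is on `Ω` the projective map given by an invertible linear map of `ℂ × ℂ^n`. -/
def Projective {n : ℕ} (Ω : Set (EuclideanSpace ℂ (Fin n)))
    (φ : EuclideanSpace ℂ (Fin n) → EuclideanSpace ℂ (Fin n)) : Prop :=
  ∃ g : (ℂ × EuclideanSpace ℂ (Fin n)) ≃ₗ[ℂ] (ℂ × EuclideanSpace ℂ (Fin n)),
    ∀ x ∈ Ω, (g ((1 : ℂ), x)).1 ≠ 0 ∧ φ x = (g ((1 : ℂ), x)).1⁻¹ • (g ((1 : ℂ), x)).2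

/-- Let `Ω = {r < 0}` be bounded in `ℂ^n`, `r` smooth, `dr ≠ 0` on the boundary, and let `φ_j` map `Ω` bijectively
onto `Ω` and be projective (fractional linear) on `Ω`.  If `φ_j q → p` for some `q ∈ Ω` and a boundary point
`p`, then the Levi form of `r` at `p` is positive definite on the complex tangent space, and for every
holomorphic curve `γ` with `γ 0 = p`, of order `m`, some derivative of `r ∘ γ` of order at most `2 m` is not
zero. -/
theorem result :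
    ∀ (n : ℕ) (Ω : Set (EuclideanSpace ℂ (Fin n))) (r : EuclideanSpace ℂ (Fin n) → ℝ),
      Bornology.IsBounded Ω →
      ContDiff ℝ ((⊤ : ℕ∞) : WithTop ℕ∞) r → Ω = {x | r x < 0} →
      (∀ x ∈ frontier Ω, fderiv ℝ r x ≠ 0) →
      ∀ (φ : ℕ → EuclideanSpace ℂ (Fin n) → EuclideanSpace ℂ (Fin n))
        (q p : EuclideanSpace ℂ (Fin n)),
        (∀ j, Set.BijOn (φ j) Ω Ω) → (∀ j, Projective Ω (φ j)) →
        q ∈ Ω → p ∈ frontier Ω →
        Filter.Tendsto (fun j => φ j q) Filter.atTop (nhds p) →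
        LeviPositive r p ∧
        ∀ γ : ℂ → EuclideanSpace ℂ (Fin n),
          (∃ ε > (0 : ℝ), DifferentiableOn ℂ γ (Metric.ball (0 : ℂ) ε)) →
          γ 0 = p →
          ∀ m : ℕ, 1 ≤ m →
            (∀ i : ℕ, 1 ≤ i → i < m → iteratedDeriv i γ 0 = 0) →
            iteratedDeriv m γ 0 ≠ 0 →
            ∃ k : ℕ, k ≤ 2 * m ∧ iteratedFDeriv ℝ k (r ∘ γ) 0 ≠ 0 := by
  intro n Ω r hb hr hΩ hgr φ q p hbij hproj hq hp ht
  obtain ⟨C₀, hC⟩ := hb.exists_norm_le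
  have hr2 : ContDiff ℝ 2 r := contDiff_infty.1 hr 2
  have hD : Dom Ω r C₀ := ⟨⟨q, hq⟩, hC, hr2, hΩ, hgr⟩
  choose g hg using hproj
  have hS : Spc r p := pMainA pLc pReg pExt pNz pOpn pInf pEnt pRk pBj pGrp pUt pKre pTay pQf pT2
    pInc pLev n Ω r C₀ φ (fun j => (g j).toContinuousLinearEquiv) q p hD hbij
    (fun j x hx => hg j x hx) hq hp ht
  obtain ⟨l, hl⟩ := pLc n r p
  refine ⟨hS, ?_⟩
  exact pTyp pTay pQf pFac pExo pFo pAvg n r p l hr (hD.r_eq hp) hl hS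

end Pool.Agent.Results.MP_16b755_an.ProjectiveAutomorphisms
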